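import Pool.Agent.H51.BM.Lines

/-!
# MP_a5d4d5_an, Q1: slices of Bedford-McMullen carpets by lines

The answer is negative, and it is negative for all large bases, whatever their arithmetic relation
(coprime bases included): for every `δ > 0` and all sufficiently large `m` and `n` with
`δ ≤ log m / log n ≤ 1 - δ` there is a digit set for which the bound fails. The digit set of the
proof is `D = {(i,0) : i < m} ∪ {(0,i) : i < m}`.

* Definitions (file `Pool/Agent/H86/CarpetGeo.lean`): `Plane` is the Euclidean plane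
  `EuclideanSpace ℝ (Fin 2)`, `contraction m n (i,j) (x,y) = ((x+i)/m, (y+j)/n)`,
  `IsCarpet m n D F`: `F` is a nonempty compact subset of `[0,1]²` with
  `F = ⋃_{d ∈ D} contraction m n d '' F`, and `line p v = {p + t v : t real}`.
* Upper bound: `F` is covered by `(2m-1)^h m^(L-h)` sets of diameter `n^(-h)`, `n^h ≤ m^L < m n^h`,
  so `dim_H F ≤ 1 + log 2 / log n`.
* Slices: fix an integer `t` with `m^(t+1) ≤ n^t`, `n ≤ m^t` and put `L = (t+4)(t+1)`. The second
  coordinate `y` has free digits less than `m` on the blocks `[(tL+1)L^l, (t+1)L^(l+1))` of places,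
  and zeros elsewhere. Choose `c > 0` such that, for all large `l`,
  `0 ≤ c - s n^(Q_l) / m^(P_(l+1)) ≤ m^(-Q_(l+1)) / 4` for some integer `s`, where
  `Q_l = (t+1)L^(l+1)` and `P_l = tL^(l+1)`; such `c` are dense, as the mesh `n^(Q_l) / m^(P_(l+1))`
  is at most `m^(-Q_l) / 8`. If `y = v / n^(Q_l) + small`, then `x = c y = s v / m^(P_(l+1)) + small`,
  so the digits of `x` vanish on the places in `[P_(l+1), Q_(l+1))` and the point `(x,y)` lies in the
  carpet: the two zero conditions on the overlap of the zero blocks of `x` and `y` are met by all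
  these points at once. The set of these points has dimension at least `1 / (t (tL + 3))`.
* By self-affinity the same holds near each point of the carpet.
-/

set_option autoImplicit false

namespace Pool.Agent.Results.MP_a5d4d5_an.AllLargeBases

open Pool.Agent.H86.Carpet Pool.Agent.H51.BM
open scoped ENNReal NNReal

/-- For every `δ > 0` there is `α > 0` such that for every `η > 0` and all large `m` and all `n`
with `δ ≤ log m / log n ≤ 1 - δ` there is a digit set `D` such that the carpet `F = F(m,n,D)` has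
dimension at most `1 + η`, while the lines `L` of positive slope with `dim_H (F ∩ L) ≥ α` and
`dim_H (F ∩ L) > max(dim_H F - 1, 0)` are dense among the lines of positive slope that meet `F`. -/
theorem result :
    ∀ δ : ℝ, 0 < δ → ∃ α : ℝ≥0, 0 < α ∧ ∀ η : ℝ≥0, 0 < η → ∃ m₀ : ℕ, ∀ m n : ℕ, m₀ ≤ m →
      δ ≤ Real.log m / Real.log n → Real.log m / Real.log n ≤ 1 - δ →
      2 ≤ m ∧ m < n ∧ ∃ D : Finset (ℕ × ℕ), D.Nonempty ∧ (∀ d ∈ D, d.1 < m ∧ d.2 < n) ∧
        (∃! F : Set Plane, IsCarpet m n D F) ∧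
        ∀ F : Set Plane, IsCarpet m n D F →
          dimH F ≤ 1 + η ∧
          ∀ p v : Plane, p ∈ F → 0 < v 0 → 0 < v 1 → ∀ ε : ℝ, 0 < ε → ∃ p' v' : Plane,
            ‖p' - p‖ < ε ∧ ‖v' - v‖ < ε ∧ 0 < v' 0 ∧ 0 < v' 1 ∧
            α ≤ dimH (F ∩ line p' v') ∧
            max (dimH F - 1) 0 < dimH (F ∩ line p' v') := by
  intro δ hδ
  obtain ⟨t, ht1, htδ⟩ : ∃ t : ℕ, 1 ≤ t ∧ 1 / δ ≤ t := by
    refine ⟨⌈1 / δ⌉₊ + 1, by omega, ?_⟩
    have := Nat.le_ceil (1 / δ)
    push_cast
    linarith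
  have hα := al_pos t ht1
  refine ⟨al t, hα, ?_⟩
  intro η hη
  obtain ⟨ζ, hζ⟩ : ∃ ζ : ℝ≥0, ζ = min η (al t / 2) := ⟨_, rfl⟩
  have hζ0 : 0 < ζ := by rw [hζ]; exact lt_min hη (by positivity)
  have hζη : ζ ≤ η := by rw [hζ]; exact min_le_left _ _
  have hζα : ζ < al t := by
    rw [hζ]
    exact (min_le_right _ _).trans_lt (NNReal.half_lt_self hα.ne')
  have hζR : (0 : ℝ) < ζ := by exact_mod_cast hζ0
  refine ⟨⌈(2 : ℝ) ^ (1 / (ζ : ℝ))⌉₊ + 2, ?_⟩
  intro m n hm h1 h2
  have hm2 : 2 ≤ m := by omega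
  have hmR : (2 : ℝ) ≤ m := by exact_mod_cast hm2
  have hlm : 0 < Real.log m := Real.log_pos (by linarith)
  have hln : 0 < Real.log n := by
    rcases lt_or_eq_of_le (Real.log_natCast_nonneg n) with h | h
    · exact h
    · rw [← h, div_zero] at h1
      linarith
  have hn0 : (0 : ℝ) < n := by
    rcases Nat.eq_zero_or_pos n with h | h
    · subst h
      simp at hln
    · exact_mod_cast h
  rw [le_div_iff₀ hln] at h1
  rw [div_le_iff₀ hln] at h2
  have htδ' : 1 ≤ t * δ := by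
    rw [div_le_iff₀ hδ] at htδ
    exact htδ
  have hmn : m < n := by
    have h3 : Real.log m < Real.log n := by nlinarith
    have h4 := (Real.log_lt_log_iff (by linarith) hn0).mp h3
    exact_mod_cast h4
  have hA : n ≤ m ^ t := by
    have h3 : Real.log n ≤ Real.log ((m : ℝ) ^ t) := by
      rw [Real.log_pow]
      calc Real.log n = 1 * Real.log n := (one_mul _).symm
        _ ≤ (t * δ) * Real.log n := by gcongr
        _ = t * (δ * Real.log n) := by ring
        _ ≤ t * Real.log m := by gcongr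
    have h4 := (Real.log_le_log_iff hn0 (by positivity)).mp h3
    exact_mod_cast h4
  have hB : m ^ (t + 1) ≤ n ^ t := by
    have h3 : Real.log ((m : ℝ) ^ (t + 1)) ≤ Real.log ((n : ℝ) ^ t) := by
      rw [Real.log_pow, Real.log_pow]
      push_cast
      calc ((t : ℝ) + 1) * Real.log m ≤ ((t : ℝ) + 1) * ((1 - δ) * Real.log n) := by gcongr
        _ = (((t : ℝ) + 1) * (1 - δ)) * Real.log n := by ring
        _ ≤ t * Real.log n := by
            apply mul_le_mul_of_nonneg_right _ hln.le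
            nlinarith
    have h4 := (Real.log_le_log_iff (by positivity) (by positivity)).mp h3
    exact_mod_cast h4
  have hN : (2 : ℝ) < (n : ℝ) ^ (ζ : ℝ) := by
    have h3 : (2 : ℝ) ^ (1 / (ζ : ℝ)) < n := by
      have h4 := Nat.le_ceil ((2 : ℝ) ^ (1 / (ζ : ℝ)))
      have h5 : ((⌈(2 : ℝ) ^ (1 / (ζ : ℝ))⌉₊ + 2 : ℕ) : ℝ) ≤ m := by exact_mod_cast hm
      have h6 : (m : ℝ) < n := by exact_mod_cast hmn
      push_cast at h5
      linarith
    have h7 : ((2 : ℝ) ^ (1 / (ζ : ℝ))) ^ (ζ : ℝ) = 2 := by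
      rw [← Real.rpow_mul (by norm_num), one_div, inv_mul_cancel₀ hζR.ne', Real.rpow_one]
    calc (2 : ℝ) = ((2 : ℝ) ^ (1 / (ζ : ℝ))) ^ (ζ : ℝ) := h7.symm
      _ < (n : ℝ) ^ (ζ : ℝ) := Real.rpow_lt_rpow (by positivity) h3 hζR
  have hD : ∀ d ∈ cross m m, d.1 < m ∧ d.2 < n := fun d hd => cross_lt' hm2 hmn hd
  have hne : (cross m m).Nonempty := ⟨(0, 0), mem_cross.mpr (Or.inl ⟨by simp only; omega, rfl⟩)⟩
  refine ⟨hm2, hmn, cross m m, hne, hD, existsUnique_carpet hm2 (by omega) hne hD, ?_⟩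
  intro F hF
  have hdim : dimH F ≤ 1 + (ζ : ℝ≥0∞) := by
    rw [hF.eq_FE hm2 (by omega) hD, dimH_FE]
    exact dimH_F_le_one_add hm2 hmn ζ hN
  refine ⟨hdim.trans (by gcongr), ?_⟩
  intro p v hp hv0 hv1 ε hε
  obtain ⟨p', v', k1, k2, k3, k4, k5⟩ := dense_lines_carpet hmn ht1 hm2 hB hA hF p v hp hv0 hv1 ε hε
  refine ⟨p', v', k1, k2, k3, k4, k5, ?_⟩
  have h6 : dimH F - 1 ≤ (ζ : ℝ≥0∞) := by
    rw [tsub_le_iff_left]
    exact hdim
  refine lt_of_le_of_lt (max_le h6 bot_le) (lt_of_lt_of_le ?_ k5)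
  exact_mod_cast hζα

end Pool.Agent.Results.MP_a5d4d5_an.AllLargeBases
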